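import Mathlib

/-!
# Endomorphisms of a lattice of length four

`Lat m n` is the lattice with the elements `bot`, `top`, `a i` (`i < m`) and an interval
`u < b l < v` (`l < n`) all of whose elements are complements of every `a i`. We determine all
bounded lattice endomorphisms when `m ≥ 2` and `n ≥ 3`.
-/

set_option autoImplicit false

namespace Q140.LatEnd

/-- the elements -/
inductive Lat (m n : ℕ) : Type
  | bot | top | a (i : Fin m) | u | v | b (l : Fin n)
  deriving DecidableEq

namespace Lat

variable {m n : ℕ}

/-- join -/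
def sup : Lat m n → Lat m n → Lat m n
  | bot, y => y
  | x, bot => x
  | top, _ => top
  | _, top => top
  | a i, a j => if i = j then a i else top
  | a _, _ => top
  | _, a _ => top
  | u, y => y
  | x, u => x
  | b l, b k => if l = k then b l else v
  | _, _ => v

/-- meet -/
def inf : Lat m n → Lat m n → Lat m n
  | top, y => y
  | x, top => x
  | bot, _ => bot
  | _, bot => bot
  | a i, a j => if i = j then a i else bot
  | a _, _ => bot
  | _, a _ => bot
  | v, y => y
  | x, v => x
  | b l, b k => if l = k then b l else u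
  | _, _ => u

lemma sup_comm' (x y : Lat m n) : sup x y = sup y x := by
  rcases x <;> rcases y <;> simp only [sup] <;> split_ifs <;> simp_all

lemma inf_comm' (x y : Lat m n) : inf x y = inf y x := by
  rcases x <;> rcases y <;> simp only [inf] <;> split_ifs <;> simp_all

lemma sup_assoc' (x y z : Lat m n) : sup (sup x y) z = sup x (sup y z) := by
  rcases x <;> rcases y <;> rcases z <;> simp only [sup] <;> split_ifs <;>
    simp_all

lemma inf_assoc' (x y z : Lat m n) : inf (inf x y) z = inf x (inf y z) := by
  rcases x <;> rcases y <;> rcases z <;> simp only [inf] <;> split_ifs <;>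
    simp_all

lemma sup_inf' (x y : Lat m n) : sup x (inf x y) = x := by
  rcases x <;> rcases y <;> simp only [inf, sup] <;> split_ifs <;> simp_all

lemma inf_sup' (x y : Lat m n) : inf x (sup x y) = x := by
  rcases x <;> rcases y <;> simp only [inf, sup] <;> split_ifs <;> simp_all

instance : Max (Lat m n) := ⟨sup⟩
instance : Min (Lat m n) := ⟨inf⟩

instance : Lattice (Lat m n) :=
  Lattice.mk' sup_comm' sup_assoc' inf_comm' inf_assoc' sup_inf' inf_sup'

lemma sup_eq (x y : Lat m n) : x ⊔ y = sup x y := rfl
lemma inf_eq (x y : Lat m n) : x ⊓ y = inf x y := rfl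

instance : BoundedOrder (Lat m n) where
  top := top
  le_top x := by
    rw [← sup_eq_right, sup_eq]; rcases x <;> rfl
  bot := bot
  bot_le x := by
    rw [← sup_eq_right, sup_eq]; rfl

lemma top_eq : (⊤ : Lat m n) = top := rfl
lemma bot_eq : (⊥ : Lat m n) = bot := rfl

/-- a code for the elements -/
def code : Lat m n ≃ (Fin 4 ⊕ Fin m) ⊕ Fin n where
  toFun
    | bot => Sum.inl (Sum.inl 0)
    | top => Sum.inl (Sum.inl 1)
    | u => Sum.inl (Sum.inl 2)
    | v => Sum.inl (Sum.inl 3)
    | a i => Sum.inl (Sum.inr i)
    | b l => Sum.inr l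
  invFun
    | Sum.inl (Sum.inl 0) => bot
    | Sum.inl (Sum.inl 1) => top
    | Sum.inl (Sum.inl 2) => u
    | Sum.inl (Sum.inl 3) => v
    | Sum.inl (Sum.inr i) => a i
    | Sum.inr l => b l
  left_inv x := by rcases x <;> rfl
  right_inv x := by
    rcases x with (x | x) | x
    · fin_cases x <;> rfl
    · rfl
    · rfl

instance : Finite (Lat m n) := Finite.of_equiv _ code.symm

lemma card_eq : Nat.card (Lat m n) = 4 + m + n := by
  rw [Nat.card_congr code]
  simp

/-- the elements of the interval `[u, v]` -/
def toL : Option (Option (Fin n)) → Lat m n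
  | none => u
  | some none => v
  | some (some l) => b l

lemma toL_inj : Function.Injective (toL : Option (Option (Fin n)) → Lat m n) := by
  intro p q h
  rcases p with _ | _ | p <;> rcases q with _ | _ | q <;> simp_all [toL]

/-- a transversal of the classes -/
def ext (p : Option (Option (Fin n))) : Option (Fin m) → Lat m n
  | none => toL p
  | some i => a i

lemma ext_inj (p : Option (Option (Fin n))) : Function.Injective (ext p : Option (Fin m) → _) := by
  intro c d h
  rcases c with _ | c <;> rcases d with _ | d <;> rcases p with _ | _ | p <;>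
    simp_all [ext, toL]

lemma ext_sup (p : Option (Option (Fin n))) (c d : Option (Fin m)) (h : c ≠ d) :
    sup (ext p c) (ext p d) = top := by
  rcases c with _ | c <;> rcases d with _ | d <;> rcases p with _ | _ | p <;>
    simp_all [ext, toL, sup]

lemma ext_inf (p : Option (Option (Fin n))) (c d : Option (Fin m)) (h : c ≠ d) :
    inf (ext p c) (ext p d) = bot := by
  rcases c with _ | c <;> rcases d with _ | d <;> rcases p with _ | _ | p <;>
    simp_all [ext, toL, inf]

lemma sup_self' (x : Lat m n) : sup x x = x := sup_idem x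
lemma inf_self' (x : Lat m n) : inf x x = x := inf_idem x

/-- underlying function of the collapsing endomorphisms -/
def funA (s : Equiv.Perm (Option (Fin m))) (p : Option (Option (Fin n))) : Lat m n → Lat m n
  | bot => bot
  | top => top
  | a i => ext p (s (some i))
  | u => ext p (s none)
  | v => ext p (s none)
  | b _ => ext p (s none)

lemma sup_bot' (x : Lat m n) : sup x bot = x := sup_bot_eq x
lemma sup_top' (x : Lat m n) : sup x top = top := sup_top_eq x
lemma bot_sup' (x : Lat m n) : sup bot x = x := rfl
lemma top_sup' (x : Lat m n) : sup top x = top := top_sup_eq x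
lemma inf_bot' (x : Lat m n) : inf x bot = bot := inf_bot_eq x
lemma inf_top' (x : Lat m n) : inf x top = x := inf_top_eq x
lemma bot_inf' (x : Lat m n) : inf bot x = bot := bot_inf_eq x
lemma top_inf' (x : Lat m n) : inf top x = x := rfl

lemma funA_sup (s : Equiv.Perm (Option (Fin m))) (p : Option (Option (Fin n)))
    (x y : Lat m n) : funA s p (sup x y) = sup (funA s p x) (funA s p y) := by
  have h1 : ∀ i, s (some i) ≠ s none := fun i h => by simpa using s.injective h
  have h2 : ∀ i, s none ≠ s (some i) := fun i h => by simpa using s.injective h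
  rcases x with _ | _ | i | _ | _ | l
  · simp only [bot_sup', funA]
  · simp only [top_sup', funA]
  · rcases y with _ | _ | j | _ | _ | k
    · simp only [sup_bot', funA]
    · simp only [sup_top', funA]
    · by_cases hij : i = j
      · subst hij
        rw [sup_self', sup_self']
      · have h3 : s (some i) ≠ s (some j) := fun h => hij (by simpa using s.injective h)
        have h4 : sup (a i : Lat m n) (a j) = top := by simp [sup, hij]
        rw [h4]
        exact (ext_sup _ _ _ h3).symm
    all_goals exact (ext_sup _ _ _ (h1 _)).symm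
  all_goals
    rcases y with _ | _ | j | _ | _ | k
    · simp only [sup_bot', funA]
    · simp only [sup_top', funA]
    · exact (ext_sup _ _ _ (h2 _)).symm
    · exact (sup_self' _).symm
    · exact (sup_self' _).symm
    · first
        | exact (sup_self' _).symm
        | (by_cases hlk : l = k
           · subst hlk
             rw [sup_self', sup_self']
           · have h4 : sup (b l : Lat m n) (b k) = v := by simp [sup, hlk]
             rw [h4]
             exact (sup_self' _).symm)

lemma funA_inf (s : Equiv.Perm (Option (Fin m))) (p : Option (Option (Fin n)))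
    (x y : Lat m n) : funA s p (inf x y) = inf (funA s p x) (funA s p y) := by
  have h1 : ∀ i, s (some i) ≠ s none := fun i h => by simpa using s.injective h
  have h2 : ∀ i, s none ≠ s (some i) := fun i h => by simpa using s.injective h
  rcases x with _ | _ | i | _ | _ | l
  · simp only [bot_inf', funA]
  · simp only [top_inf', funA]
  · rcases y with _ | _ | j | _ | _ | k
    · simp only [inf_bot', funA]
    · simp only [inf_top', funA]
    · by_cases hij : i = j
      · subst hij
        rw [inf_self', inf_self']
      · have h3 : s (some i) ≠ s (some j) := fun h => hij (by simpa using s.injective h)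
        have h4 : inf (a i : Lat m n) (a j) = bot := by simp [inf, hij]
        rw [h4]
        exact (ext_inf _ _ _ h3).symm
    all_goals exact (ext_inf _ _ _ (h1 _)).symm
  all_goals
    rcases y with _ | _ | j | _ | _ | k
    · simp only [inf_bot', funA]
    · simp only [inf_top', funA]
    · exact (ext_inf _ _ _ (h2 _)).symm
    · exact (inf_self' _).symm
    · exact (inf_self' _).symm
    · first
        | exact (inf_self' _).symm
        | (by_cases hlk : l = k
           · subst hlk
             rw [inf_self', inf_self']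
           · have h4 : inf (b l : Lat m n) (b k) = u := by simp [inf, hlk]
             rw [h4]
             exact (inf_self' _).symm)

/-- the collapsing endomorphisms -/
def endA (s : Equiv.Perm (Option (Fin m))) (p : Option (Option (Fin n))) :
    BoundedLatticeHom (Lat m n) (Lat m n) where
  toFun := funA s p
  map_sup' := funA_sup s p
  map_inf' := funA_inf s p
  map_top' := rfl
  map_bot' := rfl

/-- underlying function of the automorphisms -/
def funB (s : Equiv.Perm (Fin m)) (t : Equiv.Perm (Fin n)) : Lat m n → Lat m n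
  | bot => bot
  | top => top
  | a i => a (s i)
  | u => u
  | v => v
  | b l => b (t l)

lemma funB_sup (s : Equiv.Perm (Fin m)) (t : Equiv.Perm (Fin n)) (x y : Lat m n) :
    funB s t (sup x y) = sup (funB s t x) (funB s t y) := by
  rcases x with _ | _ | i | _ | _ | l <;> rcases y with _ | _ | j | _ | _ | k <;>
    simp only [sup, funB, EmbeddingLike.apply_eq_iff_eq] <;> split_ifs <;> rfl

lemma funB_inf (s : Equiv.Perm (Fin m)) (t : Equiv.Perm (Fin n)) (x y : Lat m n) :
    funB s t (inf x y) = inf (funB s t x) (funB s t y) := by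
  rcases x with _ | _ | i | _ | _ | l <;> rcases y with _ | _ | j | _ | _ | k <;>
    simp only [inf, funB, EmbeddingLike.apply_eq_iff_eq] <;> split_ifs <;> rfl

/-- the automorphisms -/
def endB (s : Equiv.Perm (Fin m)) (t : Equiv.Perm (Fin n)) :
    BoundedLatticeHom (Lat m n) (Lat m n) where
  toFun := funB s t
  map_sup' := funB_sup s t
  map_inf' := funB_inf s t
  map_top' := rfl
  map_bot' := rfl

lemma endB_bijective (s : Equiv.Perm (Fin m)) (t : Equiv.Perm (Fin n)) :
    Function.Bijective (endB s t) := by
  refine Finite.injective_iff_bijective.1 ?_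
  intro x y h
  change funB s t x = funB s t y at h
  rcases x with _ | _ | i | _ | _ | l <;> rcases y with _ | _ | j | _ | _ | k <;>
    simp_all [funB]

lemma endA_not_injective (s : Equiv.Perm (Option (Fin m))) (p : Option (Option (Fin n))) :
    ¬ Function.Injective (endA s p) := by
  intro h
  have : endA s p u = endA s p v := rfl
  simpa using h this

/-! ## Every endomorphism is of one of the two kinds -/

/-- the class of an element: `none` for the extremal ones, `some none` for the interval -/
def cls : Lat m n → Option (Option (Fin m))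
  | bot => none
  | top => none
  | a i => some (some i)
  | u => some none
  | v => some none
  | b _ => some none

lemma compl_cls (x y : Lat m n) (h1 : x ≠ bot) (h1' : x ≠ top) (h : sup x y = top)
    (h' : inf x y = bot) : ∃ c d, c ≠ d ∧ cls x = some c ∧ cls y = some d := by
  rcases x with _ | _ | i | _ | _ | l <;> rcases y with _ | _ | j | _ | _ | k <;>
    simp_all [sup, inf, cls]
  all_goals split_ifs at h

section Classify

variable (f : BoundedLatticeHom (Lat m n) (Lat m n))

lemma f_bot : f bot = bot := map_bot f
lemma f_top : f top = top := map_top f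
lemma f_sup (x y : Lat m n) : f (sup x y) = sup (f x) (f y) := map_sup f x y
lemma f_inf (x y : Lat m n) : f (inf x y) = inf (f x) (f y) := map_inf f x y

/-- complements are mapped to complements -/
lemma f_compl {x y : Lat m n} (h : sup x y = top) (h' : inf x y = bot) :
    sup (f x) (f y) = top ∧ inf (f x) (f y) = bot := by
  rw [← f_sup, ← f_inf, h, h', f_top, f_bot]
  exact ⟨rfl, rfl⟩

/-- three pairwise complementary elements are mapped to non-extremal elements -/
lemma f_three {x y z : Lat m n} (h1 : sup x y = top) (h1' : inf x y = bot)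
    (h2 : sup x z = top) (h2' : inf x z = bot) (h3 : sup y z = top) (h3' : inf y z = bot) :
    f x ≠ bot ∧ f x ≠ top := by
  obtain ⟨a1, a1'⟩ := f_compl f h1 h1'
  obtain ⟨a2, a2'⟩ := f_compl f h2 h2'
  obtain ⟨a3, a3'⟩ := f_compl f h3 h3'
  constructor
  · intro h
    rw [h, bot_sup'] at a1 a2
    rw [a1, a2, top_inf'] at a3'
    simp at a3'
  · intro h
    rw [h, top_inf'] at a1' a2'
    rw [a1', a2', bot_sup'] at a3
    simp at a3

lemma two_le_exists (hm : 2 ≤ m) (i : Fin m) : ∃ j, j ≠ i := by
  have : Nontrivial (Fin m) := Fin.nontrivial_iff_two_le.2 hm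
  exact exists_ne i

lemma f_a (hm : 2 ≤ m) (i : Fin m) : f (a i) ≠ bot ∧ f (a i) ≠ top := by
  obtain ⟨j, hj⟩ := two_le_exists hm i
  exact f_three f (y := a j) (z := u) (by simp [sup, hj.symm]) (by simp [inf, hj.symm]) rfl rfl
    rfl rfl

lemma f_M (hm : 2 ≤ m) (p : Option (Option (Fin n))) :
    f (toL p) ≠ bot ∧ f (toL p) ≠ top := by
  have i : Fin m := ⟨0, by omega⟩
  obtain ⟨j, hj⟩ := two_le_exists hm i
  refine f_three f (y := a i) (z := a j) ?_ ?_ ?_ ?_ (by simp [sup, hj.symm])
    (by simp [inf, hj.symm]) <;> rcases p with _ | _ | p <;> rfl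

/-- elements with a given class -/
lemma eq_of_cls {x : Lat m n} {c : Option (Fin m)} (h : cls x = some c) :
    (∃ i, c = some i ∧ x = a i) ∨ (c = none ∧ ∃ p, x = toL p) := by
  rcases x with _ | _ | i | _ | _ | l <;> simp [cls] at h
  · exact Or.inl ⟨i, h.symm, rfl⟩
  · exact Or.inr ⟨h.symm, none, rfl⟩
  · exact Or.inr ⟨h.symm, some none, rfl⟩
  · exact Or.inr ⟨h.symm, some (some l), rfl⟩

/-- the case where the interval is collapsed -/
lemma classifyA (hm : 2 ≤ m) (huv : f u = f v) : ∃ s p, f = endA s p := by
  -- the interval is mapped to one element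
  have hM : ∀ p : Option (Option (Fin n)), f (toL p) = f u := by
    intro p
    rcases p with _ | _ | l
    · rfl
    · exact huv.symm
    · have h1 : f (b l) = sup (f u) (f (b l)) := by rw [← f_sup]; rfl
      have h2 : f v = sup (f (b l)) (f v) := by rw [← f_sup]; rfl
      have h3 : f u ≤ f (b l) := by rw [← sup_eq_right]; exact h1.symm
      have h4 : f (b l) ≤ f v := by rw [← sup_eq_right]; exact h2.symm
      exact le_antisymm (huv ▸ h4) h3
  -- the transversal
  let g : Option (Fin m) → Lat m n := fun c => f (ext none c)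
  have hg : ∀ c, g c ≠ bot ∧ g c ≠ top := by
    intro c
    rcases c with _ | i
    · exact f_M f hm none
    · exact f_a f hm i
  have hgc : ∀ c d, c ≠ d → ∃ c' d', c' ≠ d' ∧ cls (g c) = some c' ∧ cls (g d) = some d' := by
    intro c d hcd
    obtain ⟨h1, h2⟩ := f_compl f (ext_sup none c d hcd) (ext_inf none c d hcd)
    exact compl_cls _ _ (hg c).1 (hg c).2 h1 h2
  have hex : ∀ c, ∃ c', cls (g c) = some c' := by
    intro c
    rcases hcls : g c with _ | _ | i | _ | _ | l
    · exact absurd hcls (hg c).1
    · exact absurd hcls (hg c).2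
    all_goals exact ⟨_, rfl⟩
  choose s0 hs0 using hex
  have hs0inj : Function.Injective s0 := by
    intro c d h
    by_contra hcd
    obtain ⟨c', d', h1, h2, h3⟩ := hgc c d hcd
    rw [hs0] at h2 h3
    apply h1
    rw [← Option.some_inj, ← h2, ← h3, h]
  let s : Equiv.Perm (Option (Fin m)) :=
    Equiv.ofBijective s0 (Finite.injective_iff_bijective.1 hs0inj)
  -- the element of the interval
  have hp : ∃ p, g (s.symm none) = toL p := by
    have h1 := hs0 (s.symm none)
    have h2 : s0 (s.symm none) = none := s.apply_symm_apply none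
    rw [h2] at h1
    rcases eq_of_cls h1 with ⟨i, h, _⟩ | ⟨_, p, h⟩
    · simp at h
    · exact ⟨p, h⟩
  obtain ⟨p, hp⟩ := hp
  have hgs : ∀ c, g c = ext p (s c) := by
    intro c
    have h1 := hs0 c
    rcases eq_of_cls h1 with ⟨i, h, h'⟩ | ⟨h, p', h'⟩
    · rw [h']
      have : s c = some i := h
      rw [this]; rfl
    · have h2 : s c = none := h
      have h3 : c = s.symm none := by rw [← h2, Equiv.symm_apply_apply]
      rw [h2, h3, hp]; rfl
  refine ⟨s, p, ?_⟩
  apply DFunLike.ext
  intro x
  change f x = funA s p x
  rcases x with _ | _ | i | _ | _ | l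
  · exact f_bot f
  · exact f_top f
  · exact hgs (some i)
  · exact hgs none
  · rw [← huv]; exact hgs none
  · exact (hM (some (some l))).trans (hgs none)

/-- the case where the interval is not collapsed -/
lemma classifyB (hm : 2 ≤ m) (hn : 3 ≤ n) (huv : f u ≠ f v) : ∃ s t, f = endB s t := by
  have hu := f_M f hm none
  have hv := f_M f hm (some none)
  change f u ≠ bot ∧ f u ≠ top at hu
  change f v ≠ bot ∧ f v ≠ top at hv
  have hsupuv : sup (f u) (f v) = f v := by rw [← f_sup]; rfl
  -- `f u` and `f v` are in the interval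
  have huv' : (∃ p, f u = toL p) ∧ ∃ p, f v = toL p := by
    rcases hx : f u with _ | _ | i | _ | _ | l
    · exact absurd hx hu.1
    · exact absurd hx hu.2
    · exfalso
      rw [hx] at hsupuv huv
      rcases hy : f v with _ | _ | j | _ | _ | k <;> rw [hy] at hsupuv huv hv <;>
        simp [sup] at hsupuv hv
      · apply huv
        by_contra hij
        have : i ≠ j := fun h => hij (by rw [h])
        simp [this] at hsupuv
    all_goals
      rw [hx] at hsupuv huv
      rcases hy : f v with _ | _ | j | _ | _ | k <;> rw [hy] at hsupuv huv hv <;>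
        simp [sup] at hsupuv hv
    · exact ⟨⟨none, rfl⟩, none, rfl⟩
    · exact ⟨⟨none, rfl⟩, some none, rfl⟩
    · exact ⟨⟨none, rfl⟩, some (some k), rfl⟩
    · exact ⟨⟨some none, rfl⟩, some none, rfl⟩
    · exact ⟨⟨some (some l), rfl⟩, some none, rfl⟩
    · exact ⟨⟨some (some l), rfl⟩, some (some k), rfl⟩
  obtain ⟨⟨pu, hpu⟩, pv, hpv⟩ := huv'
  -- the images of the `a i`
  have ha : ∀ i, ∃ j, f (a i) = a j := by
    intro i
    obtain ⟨h1, h2⟩ := f_compl f (x := a i) (y := u) rfl rfl
    obtain ⟨c, d, hcd, hc, hd⟩ := compl_cls _ _ (f_a f hm i).1 (f_a f hm i).2 h1 h2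
    rw [hpu] at hd
    have hd' : d = none := by
      rcases pu with _ | _ | l <;> simp [toL, cls] at hd <;> exact hd.symm
    subst hd'
    rcases eq_of_cls hc with ⟨j, _, h⟩ | ⟨h, _⟩
    · exact ⟨j, h⟩
    · exact absurd h hcd
  choose s0 hs0 using ha
  have hs0inj : Function.Injective s0 := by
    intro i j h
    by_contra hij
    obtain ⟨h1, -⟩ := f_compl f (x := a i) (y := a j) (by simp [sup, hij]) (by simp [inf, hij])
    rw [hs0, hs0, h, sup_self'] at h1
    simp at h1
  -- the images of the `b l`
  have hbsup : ∀ l k, l ≠ k → sup (f (b l)) (f (b k)) = f v := by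
    intro l k h; rw [← f_sup]; simp [sup, h]
  have hbinf : ∀ l k, l ≠ k → inf (f (b l)) (f (b k)) = f u := by
    intro l k h; rw [← f_inf]; simp [inf, h]
  have hbne : ∀ l k, l ≠ k → f (b l) ≠ f (b k) := by
    intro l k h he
    apply huv
    rw [← hbsup l k h, ← hbinf l k h, he, sup_self', inf_self']
  have hthree : ∀ l : Fin n, ∃ k k' : Fin n, l ≠ k ∧ l ≠ k' ∧ k ≠ k' := by
    intro l
    have hcard : 1 < ((Finset.univ : Finset (Fin n)).erase l).card := by
      rw [Finset.card_erase_of_mem (Finset.mem_univ _), Finset.card_univ, Fintype.card_fin]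
      omega
    obtain ⟨k, hk, k', hk', hne⟩ := Finset.one_lt_card.1 hcard
    exact ⟨k, k', (Finset.ne_of_mem_erase hk).symm, (Finset.ne_of_mem_erase hk').symm, hne⟩
  have hb : ∀ l, ∃ k, f (b l) = b k := by
    intro l
    obtain ⟨k, k', h1, h2, h3⟩ := hthree l
    have hl1 : sup (f u) (f (b l)) = f (b l) := by rw [← f_sup]; rfl
    have hl2 : sup (f (b l)) (f v) = f v := by rw [← f_sup]; rfl
    have hk1 : sup (f u) (f (b k)) = f (b k) := by rw [← f_sup]; rfl
    have hk2 : inf (f (b k)) (f v) = f (b k) := by rw [← f_inf]; rfl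
    have hk1' : sup (f u) (f (b k')) = f (b k') := by rw [← f_sup]; rfl
    have hk2' : inf (f (b k')) (f v) = f (b k') := by rw [← f_inf]; rfl
    rcases hx : f (b l) with _ | _ | i | _ | _ | j
    · rw [hx, hpu] at hl1
      rcases pu with _ | _ | q <;> simp [toL, sup] at hl1
    · rw [hx, hpv] at hl2
      rcases pv with _ | _ | q <;> simp [toL, sup] at hl2
    · rw [hx, hpu] at hl1
      rcases pu with _ | _ | q <;> simp [toL, sup] at hl1
    · -- `f (b l) = u`
      exfalso
      have hfu : f u = u := by
        rw [hx, hpu] at hl1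
        rw [hpu]
        rcases pu with _ | _ | q <;> simp [toL, sup] at hl1 ⊢
      have e1 := hbsup l k h1
      have e2 := hbsup l k' h2
      rw [hx] at e1 e2
      rw [hfu] at hk1 hk1'
      rw [hk1] at e1
      rw [hk1'] at e2
      exact hbne k k' h3 (e1.trans e2.symm)
    · -- `f (b l) = v`
      exfalso
      have hfv : f v = v := by
        rw [hx, hpv] at hl2
        rw [hpv]
        rcases pv with _ | _ | q <;> simp [toL, sup] at hl2 ⊢
      have e1 := hbinf l k h1
      have e2 := hbinf l k' h2
      rw [hx] at e1 e2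
      rw [hfv] at hk2 hk2'
      rw [inf_comm', hk2] at e1
      rw [inf_comm', hk2'] at e2
      exact hbne k k' h3 (e1.trans e2.symm)
    · exact ⟨j, rfl⟩
  choose t0 ht0 using hb
  have ht0inj : Function.Injective t0 := by
    intro l k h
    by_contra hlk
    exact hbne l k hlk (by rw [ht0, ht0, h])
  refine ⟨Equiv.ofBijective s0 (Finite.injective_iff_bijective.1 hs0inj),
    Equiv.ofBijective t0 (Finite.injective_iff_bijective.1 ht0inj), ?_⟩
  obtain ⟨k, -, hk, -, -⟩ := hthree ⟨0, by omega⟩
  apply DFunLike.ext
  intro x
  change f x = funB _ _ x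
  rcases x with _ | _ | i | _ | _ | l
  · exact f_bot f
  · exact f_top f
  · exact hs0 i
  · have := hbinf _ _ hk
    rw [ht0, ht0] at this
    have hne : t0 ⟨0, by omega⟩ ≠ t0 k := fun h => hk (ht0inj h)
    rw [← this]
    simp [inf, hne, funB]
  · have := hbsup _ _ hk
    rw [ht0, ht0] at this
    have hne : t0 ⟨0, by omega⟩ ≠ t0 k := fun h => hk (ht0inj h)
    rw [← this]
    simp [sup, hne, funB]
  · exact ht0 l

end Classify

/-! ## Counting -/

/-- all endomorphisms -/
def allEnd : (Equiv.Perm (Option (Fin m)) × Option (Option (Fin n))) ⊕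
    (Equiv.Perm (Fin m) × Equiv.Perm (Fin n)) → BoundedLatticeHom (Lat m n) (Lat m n)
  | Sum.inl x => endA x.1 x.2
  | Sum.inr x => endB x.1 x.2

lemma endB_inj {s s' : Equiv.Perm (Fin m)} {t t' : Equiv.Perm (Fin n)}
    (h : endB s t = endB s' t') : s = s' ∧ t = t' := by
  constructor
  · ext i
    have h1 : endB s t (a i) = endB s' t' (a i) := by rw [h]
    have h2 : (a (s i) : Lat m n) = a (s' i) := h1
    injection h2 with h2
    rw [h2]
  · ext l
    have h1 : endB s t (b l) = endB s' t' (b l) := by rw [h]
    have h2 : (b (t l) : Lat m n) = b (t' l) := h1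
    injection h2 with h2
    rw [h2]

lemma endA_inj {s s' : Equiv.Perm (Option (Fin m))} {p p' : Option (Option (Fin n))}
    (h : endA s p = endA s' p') : s = s' ∧ p = p' := by
  have hfun : ∀ c, (ext p (s c) : Lat m n) = ext p' (s' c) := by
    intro c
    rcases c with _ | i
    · have h1 : endA s p u = endA s' p' u := by rw [h]
      exact h1
    · have h1 : endA s p (a i) = endA s' p' (a i) := by rw [h]
      exact h1
  have hcls : ∀ (q : Option (Option (Fin n))) (c : Option (Fin m)),
      cls (ext q c : Lat m n) = some c := by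
    intro q c
    rcases c with _ | i
    · rcases q with _ | _ | q <;> rfl
    · rfl
  have hs : s = s' := by
    apply Equiv.ext
    intro c
    have h1 := congrArg cls (hfun c)
    rw [hcls, hcls] at h1
    exact Option.some_inj.1 h1
  refine ⟨hs, ?_⟩
  subst hs
  have h1 := hfun (s.symm none)
  rw [Equiv.apply_symm_apply] at h1
  exact toL_inj h1

lemma allEnd_bijective (hm : 2 ≤ m) (hn : 3 ≤ n) :
    Function.Bijective (allEnd : _ → BoundedLatticeHom (Lat m n) (Lat m n)) := by
  constructor
  · rintro (⟨s, p⟩ | ⟨s, t⟩) (⟨s', p'⟩ | ⟨s', t'⟩) h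
    · obtain ⟨h1, h2⟩ := endA_inj (show endA s p = endA s' p' from h)
      rw [h1, h2]
    · have h' : endA s p = endB s' t' := h
      exact absurd ((endB_bijective s' t').1) (h' ▸ endA_not_injective s p)
    · have h' : endB s t = endA s' p' := h
      exact absurd ((endB_bijective s t).1) (h'.symm ▸ endA_not_injective s' p')
    · obtain ⟨h1, h2⟩ := endB_inj (show endB s t = endB s' t' from h)
      rw [h1, h2]
  · intro f
    by_cases huv : f u = f v
    · obtain ⟨s, p, h⟩ := classifyA f hm huv
      exact ⟨Sum.inl (s, p), h.symm⟩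
    · obtain ⟨s, t, h⟩ := classifyB f hm hn huv
      exact ⟨Sum.inr (s, t), h.symm⟩

open Nat in
lemma card_end (hm : 2 ≤ m) (hn : 3 ≤ n) : Nat.card (BoundedLatticeHom (Lat m n) (Lat m n)) =
    (m + 1)! * (n + 2) + m ! * n ! := by
  rw [← Nat.card_congr (Equiv.ofBijective _ (allEnd_bijective hm hn)), Nat.card_eq_fintype_card]
  simp [Fintype.card_perm]

open Nat in
lemma card_aut (hm : 2 ≤ m) (hn : 3 ≤ n) :
    Nat.card {f : BoundedLatticeHom (Lat m n) (Lat m n) // Function.Bijective f} = m ! * n ! := by
  have hbij : Function.Bijective (fun x : Equiv.Perm (Fin m) × Equiv.Perm (Fin n) =>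
      (⟨endB x.1 x.2, endB_bijective x.1 x.2⟩ :
        {f : BoundedLatticeHom (Lat m n) (Lat m n) // Function.Bijective f})) := by
    constructor
    · rintro ⟨s, t⟩ ⟨s', t'⟩ h
      obtain ⟨h1, h2⟩ := endB_inj (show endB s t = endB s' t' from Subtype.ext_iff.1 h)
      rw [h1, h2]
    · rintro ⟨f, hf⟩
      have huv : f u ≠ f v := fun h => by simpa using hf.1 h
      obtain ⟨s, t, h⟩ := classifyB f hm hn huv
      exact ⟨(s, t), Subtype.ext h.symm⟩
  rw [← Nat.card_congr (Equiv.ofBijective _ hbij), Nat.card_eq_fintype_card]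
  simp [Fintype.card_perm]

end Lat

end Q140.LatEnd
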